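import Mathlib
import Pool.Agent.Q29.GoodMain
import Pool.Agent.Q29.DigDir

/-!
# Scales at which all irrational values of polynomials have complicated digits in all bases
-/

set_option autoImplicit false

namespace Pool.Agent.Q23.GD

open Finset Polynomial Pool.Agent.Q29.DD
open Pool.Agent.Q29.Eqd (rv rv_CC abs_rv vl_le good_main)
open Pool.Agent.TH456.TM (hgt vl IR MeasT le_hgt)

/-- the digits of `x` are complicated at the scale `Λ` in all bases -/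
def ComplexAt (κ Λ x : ℝ) : Prop :=
  ∀ g : ℕ, 2 ≤ g → (g : ℝ) ≤ Real.exp (κ * Λ) → ∀ L : ℕ, Λ ≤ L * Real.log g →
    κ * (Λ / Real.log g) ≤ complexity g x L

open Pool.Agent.W47.JL in
theorem err_le (N : ℕ) : err N ≤ (N : ℝ) + 1 := by
  have e : err N = Real.sqrt (((N : ℝ) + 1) * Real.log ((N : ℝ) + 2)) := rfl
  rw [e]
  have hN : (0 : ℝ) ≤ N := Nat.cast_nonneg _
  have h1 : Real.log ((N : ℝ) + 2) ≤ (N : ℝ) + 1 := by
    have := Real.log_le_sub_one_of_pos (show (0 : ℝ) < (N : ℝ) + 2 by linarith)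
    linarith
  exact Real.sqrt_le_iff.2 ⟨by linarith, by nlinarith⟩

open Pool.Agent.W47.JL in
theorem core_complex (κ Λ x : ℝ)
    (h : ∀ q : ℕ, 1 ≤ q → (q : ℝ) ≤ Real.exp (32 * κ * Λ) → ∀ p : ℤ,
      |(q : ℝ) * x - p| ≤ Real.exp (32 * κ * Λ - Λ) → False) : ComplexAt κ Λ x := by
  intro g hg hgΛ L hL
  by_contra hcon
  push Not at hcon
  obtain ⟨q, hq, p, h1, h2⟩ := approx g hg x L
  obtain ⟨N, hN⟩ : ∃ N, N = complexity g x L := ⟨_, rfl⟩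
  obtain ⟨w, hw⟩ : ∃ w, w = Real.log g := ⟨_, rfl⟩
  rw [← hN, ← hw] at h1 h2
  rw [← hN, ← hw] at hcon
  rw [← hw] at hL
  have hw0 : 0 < w := by
    rw [hw]
    exact Real.log_pos (by exact_mod_cast (by omega : 1 < g))
  have hwΛ : w ≤ κ * Λ := by
    rw [hw, Real.log_le_iff_le_exp (by positivity)]
    exact hgΛ
  have hNw : (N : ℝ) * w < κ * Λ := by
    rw [← mul_div_assoc, lt_div_iff₀ hw0] at hcon
    exact hcon
  have hA : ((N : ℝ) + 15 * err N + 1) * w ≤ 32 * κ * Λ := by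
    have h3 := err_le N
    have h4 : ((N : ℝ) + 15 * err N + 1) * w ≤ ((N : ℝ) + 15 * ((N : ℝ) + 1) + 1) * w := by
      apply mul_le_mul_of_nonneg_right _ hw0.le
      linarith
    have e : ((N : ℝ) + 15 * ((N : ℝ) + 1) + 1) * w = 16 * (N * w) + 16 * w := by ring
    rw [e] at h4
    linarith
  exact h q hq (h1.trans (Real.exp_le_exp.2 hA)) p (h2.trans (Real.exp_le_exp.2 (by linarith)))

theorem hgt_le (R : ℤ[X][X]) (B : ℝ) (hB : 0 ≤ B) (h : ∀ j i, |((R.coeff j).coeff i : ℝ)| ≤ B) : (hgt R : ℝ) ≤ B := by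
  have h1 : hgt R ≤ ⌊B⌋₊ := by
    unfold hgt
    refine Finset.sup_le fun j _ => Finset.sup_le fun i _ => Nat.le_floor ?_
    rw [Nat.cast_natAbs]
    push_cast
    exact h j i
  exact (Nat.cast_le.2 h1).trans (Nat.floor_le hB)

/-- the polynomial `q P - p` -/
noncomputable def lin (q p : ℤ) (P : ℤ[X][X]) : ℤ[X][X] := C (C q) * P - C (C p)

theorem lin_rv (z t : ℝ) (q p : ℤ) (P : ℤ[X][X]) : rv z t (lin q p P) = q * rv z t P - p := by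
  unfold lin
  rw [map_sub, map_mul, rv_CC, rv_CC]

theorem lin_deg (q p : ℤ) (P : ℤ[X][X]) (D : ℕ) (h : P.natDegree ≤ D) : (lin q p P).natDegree ≤ D := by
  unfold lin
  refine (natDegree_sub_le _ _).trans (max_le ((natDegree_C_mul_le _ _).trans h) ?_)
  rw [natDegree_C]
  exact Nat.zero_le _

theorem lin_coeff (q p : ℤ) (P : ℤ[X][X]) (j : ℕ) :
    (lin q p P).coeff j = C q * P.coeff j - if j = 0 then C p else 0 := by
  unfold lin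
  rw [coeff_sub, coeff_C_mul, coeff_C]

theorem lin_deg' (q p : ℤ) (P : ℤ[X][X]) (D : ℕ) (h : ∀ j, (P.coeff j).natDegree ≤ D) (j : ℕ) :
    ((lin q p P).coeff j).natDegree ≤ D := by
  rw [lin_coeff]
  refine (natDegree_sub_le _ _).trans (max_le ((natDegree_C_mul_le _ _).trans (h j)) ?_)
  split_ifs
  · rw [natDegree_C]; exact Nat.zero_le _
  · rw [natDegree_zero]; exact Nat.zero_le _

theorem lin_hgt (q p : ℤ) (P : ℤ[X][X]) (Q H Y : ℝ) (hq : |(q : ℝ)| ≤ Q) (hP : (hgt P : ℝ) ≤ H)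
    (hp : |(p : ℝ)| ≤ Y) : (hgt (lin q p P) : ℝ) ≤ Q * H + Y := by
  have hQ : 0 ≤ Q := (abs_nonneg _).trans hq
  have hH : 0 ≤ H := (Nat.cast_nonneg _).trans hP
  have hY : 0 ≤ Y := (abs_nonneg _).trans hp
  refine hgt_le _ _ (by positivity) fun j i => ?_
  rw [lin_coeff, coeff_sub, coeff_C_mul]
  push_cast
  refine (abs_sub _ _).trans (add_le_add ?_ ?_)
  · rw [abs_mul]
    refine mul_le_mul hq ?_ (abs_nonneg _) hQ
    have h1 := le_hgt P j i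
    have h2 : ((((P.coeff j).coeff i).natAbs : ℕ) : ℝ) ≤ (hgt P : ℝ) := by exact_mod_cast h1
    rw [Nat.cast_natAbs] at h2
    push_cast at h2
    exact h2.trans hP
  · split_ifs
    · rw [coeff_C]
      split_ifs
      · exact hp
      · simpa using hY
    · simpa using hY

/-- one scale -/
theorem good_of_bound (z : ℝ) (D : ℕ) (κ₀ : ℝ) (hκ₀ : 0 < κ₀) (hκ₁ : κ₀ ≤ 1) (T : ℝ) :
    ∃ Λ₀ : ℝ, 1 ≤ Λ₀ ∧ ∀ Λ : ℝ, Λ₀ ≤ Λ → ∀ t : ℝ, |t| ≤ T → ∀ N : ℕ, (N : ℝ) ≤ Real.exp (Λ / 2) →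
      Real.exp (Λ / 2) ≤ 2 * N → ∀ P : ℤ[X][X], P.natDegree ≤ D → (∀ j, (P.coeff j).natDegree ≤ D) →
      (hgt P : ℝ) ≤ Real.exp (κ₀ / 132 * Λ) →
      (∀ q : ℕ, 1 ≤ q → ∀ p : ℤ, (lin q p P).natDegree ≤ D → (∀ j, ((lin q p P).coeff j).natDegree ≤ D) →
        (hgt (lin q p P) : ℝ) ≤ (N : ℝ) ^ κ₀ → 1 / (N : ℝ) ≤ |rv z t (lin q p P)|) →
      ComplexAt (κ₀ / 132) Λ (rv z t P) := by
  obtain ⟨X, hX⟩ : ∃ X : ℝ, X = ((D + 1) * (max 1 T) ^ D * ((D + 1) * (max 1 ‖(z : ℂ)‖) ^ D)) := ⟨_, rfl⟩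
  have hX0 : 0 ≤ X := by
    rw [hX]
    have h1 : (0 : ℝ) ≤ max 1 T := le_max_of_le_left zero_le_one
    have h2 : (0 : ℝ) ≤ max 1 ‖(z : ℂ)‖ := le_max_of_le_left zero_le_one
    positivity
  refine ⟨max 1 (4 * Real.log (2 * (X + 2)) / κ₀), le_max_left _ _, ?_⟩
  intro Λ hΛ t ht N hN1 hN2 P hPy hPx hPh hR
  have hΛ1 : 1 ≤ Λ := (le_max_left _ _).trans hΛ
  have hΛ2 : 2 * (X + 2) ≤ Real.exp (κ₀ / 4 * Λ) := by
    rw [← Real.log_le_iff_le_exp (by positivity)]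
    have h1 := (le_max_right _ _).trans hΛ
    rw [div_le_iff₀ hκ₀] at h1
    linarith
  have hNpos : (0 : ℝ) < N := by
    have := Real.exp_pos (Λ / 2)
    linarith
  refine core_complex _ _ _ fun q hq hqΛ p hp => ?_
  have e32 : 32 * (κ₀ / 132) * Λ = 8 / 33 * κ₀ * Λ := by ring
  have hκΛ : 0 < κ₀ * Λ := by positivity
  have hκΛ1 : κ₀ * Λ ≤ Λ := by nlinarith
  have hp1 : |(q : ℝ) * rv z t P - p| ≤ 1 := by
    refine hp.trans ?_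
    rw [← Real.exp_zero]
    exact Real.exp_le_exp.2 (by rw [e32]; nlinarith)
  have hx : |rv z t P| ≤ X * Real.exp (κ₀ / 132 * Λ) := by
    rw [abs_rv, hX]
    exact vl_le (z : ℂ) (t : ℂ) D P hPy hPx _ T (by rw [Complex.norm_real, Real.norm_eq_abs]; exact ht) hPh
  have hpY : |(p : ℝ)| ≤ X * Real.exp (κ₀ / 4 * Λ) + 1 := by
    have e : (p : ℝ) = q * rv z t P - (q * rv z t P - p) := by ring
    rw [e]
    refine (abs_sub _ _).trans (add_le_add ?_ hp1)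
    rw [abs_mul, Nat.abs_cast]
    calc (q : ℝ) * |rv z t P| ≤ Real.exp (32 * (κ₀ / 132) * Λ) * (X * Real.exp (κ₀ / 132 * Λ)) :=
          mul_le_mul hqΛ hx (abs_nonneg _) (Real.exp_pos _).le
      _ = X * Real.exp (κ₀ / 4 * Λ) := by
          rw [mul_left_comm, ← Real.exp_add]
          congr 2
          ring
  have hqa : |((q : ℤ) : ℝ)| ≤ Real.exp (32 * (κ₀ / 132) * Λ) := by
    rw [Int.cast_natCast, Nat.abs_cast]
    exact hqΛ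
  have hh := lin_hgt (q : ℤ) p P _ _ _ hqa hPh hpY
  have hh2 : Real.exp (32 * (κ₀ / 132) * Λ) * Real.exp (κ₀ / 132 * Λ) + (X * Real.exp (κ₀ / 4 * Λ) + 1) ≤
      (N : ℝ) ^ κ₀ := by
    have e1 : Real.exp (32 * (κ₀ / 132) * Λ) * Real.exp (κ₀ / 132 * Λ) = Real.exp (κ₀ / 4 * Λ) := by
      rw [← Real.exp_add]
      congr 1
      ring
    rw [e1]
    obtain ⟨E, hE⟩ : ∃ E, E = Real.exp (κ₀ / 4 * Λ) := ⟨_, rfl⟩
    have hE1 : 1 ≤ E := by rw [hE]; exact Real.one_le_exp (by positivity)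
    rw [← hE] at hΛ2 ⊢
    have h1 : (Real.exp (Λ / 2) / 2) ^ κ₀ ≤ (N : ℝ) ^ κ₀ :=
      Real.rpow_le_rpow (by positivity) (by linarith) hκ₀.le
    refine le_trans ?_ h1
    rw [Real.div_rpow (Real.exp_pos _).le (by norm_num), ← Real.exp_mul]
    have h2 : (2 : ℝ) ^ κ₀ ≤ 2 := by
      calc (2 : ℝ) ^ κ₀ ≤ (2 : ℝ) ^ (1 : ℝ) := Real.rpow_le_rpow_of_exponent_le (by norm_num) hκ₁
        _ = 2 := Real.rpow_one _
    have h3 : Real.exp (Λ / 2 * κ₀) = E * E := by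
      rw [hE, ← Real.exp_add]
      congr 1
      ring
    rw [h3, le_div_iff₀ (by positivity)]
    have h4 : E + (X * E + 1) ≤ (X + 2) * E := by nlinarith
    calc (E + (X * E + 1)) * 2 ^ κ₀ ≤ ((X + 2) * E) * 2 :=
          mul_le_mul h4 h2 (by positivity) (by positivity)
      _ = (2 * (X + 2)) * E := by ring
      _ ≤ E * E := mul_le_mul_of_nonneg_right hΛ2 (by linarith)
  have h5 := hR q hq p (lin_deg _ _ _ _ hPy) (lin_deg' _ _ _ _ hPx) (hh.trans hh2)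
  rw [lin_rv] at h5
  push_cast at h5
  have h6 := h5.trans hp
  have h7 : Real.exp (-(Λ / 2)) ≤ 1 / (N : ℝ) := by
    rw [Real.exp_neg, one_div]
    exact inv_anti₀ hNpos hN1
  have h8 := Real.exp_le_exp.1 (h7.trans h6)
  rw [e32] at h8
  nlinarith

/-- **Good scales for digits.** -/
theorem dig_good (z : ℝ) (hz : MeasT (z : ℂ)) (D : ℕ) (hD : 1 ≤ D) : ∃ κ : ℝ, 0 < κ ∧
    (∀ T : ℝ, ∃ Λ₀ : ℝ, ∀ Λ : ℝ, Λ₀ ≤ Λ → ∀ t : ℝ, |t| ≤ T → ∃ Q ∈ IR D, 0 < Q.natDegree ∧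
      ∀ P : ℤ[X][X], P.natDegree ≤ D → (∀ j, (P.coeff j).natDegree ≤ D) → (hgt P : ℝ) ≤ Real.exp (κ * Λ) →
        (∀ q : ℕ, 1 ≤ q → ∀ p : ℤ, ¬ Q ∣ lin q p P) → ComplexAt κ Λ (rv z t P)) ∧
    ∀ t : ℝ, ∃ G : Set ℝ, (∀ B : ℝ, ∃ Λ ∈ G, B ≤ Λ) ∧
      (∀ Λ ∈ G, ∀ P : ℤ[X][X], P.natDegree ≤ D → (∀ j, (P.coeff j).natDegree ≤ D) →
        (hgt P : ℝ) ≤ Real.exp (κ * Λ) → Irrational (rv z t P) → ComplexAt κ Λ (rv z t P)) ∧
      ((∃ Q ∈ IR D, rv z t Q = 0) → ∃ Λ₁ : ℝ, ∀ Λ : ℝ, Λ₁ ≤ Λ → Λ ∈ G) := by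
  obtain ⟨κ', hκ', h1, h2⟩ := good_main z hz D hD 1 le_rfl 0 1 le_rfl
  obtain ⟨κ₀, hκ₀E⟩ : ∃ κ₀ : ℝ, κ₀ = min κ' 1 := ⟨_, rfl⟩
  have hκ₀ : 0 < κ₀ := by rw [hκ₀E]; exact lt_min hκ' one_pos
  have hκ₀' : κ₀ ≤ κ' := by rw [hκ₀E]; exact min_le_left _ _
  have hκ₀1 : κ₀ ≤ 1 := by rw [hκ₀E]; exact min_le_right _ _
  have hpow : ∀ N : ℕ, 1 ≤ N → (N : ℝ) ^ κ₀ ≤ (N : ℝ) ^ κ' := fun N hN =>
    Real.rpow_le_rpow_of_exponent_le (by exact_mod_cast hN) hκ₀'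
  -- the natural number attached to the scale
  have hfl : ∀ Λ : ℝ, 0 ≤ Λ → 1 ≤ ⌊Real.exp (Λ / 2)⌋₊ ∧ ((⌊Real.exp (Λ / 2)⌋₊ : ℕ) : ℝ) ≤ Real.exp (Λ / 2) ∧
      Real.exp (Λ / 2) ≤ 2 * (⌊Real.exp (Λ / 2)⌋₊ : ℕ) := by
    intro Λ hΛ
    have h3 : 1 ≤ Real.exp (Λ / 2) := Real.one_le_exp (by positivity)
    have h4 : 1 ≤ ⌊Real.exp (Λ / 2)⌋₊ := Nat.le_floor (by simpa using h3)
    refine ⟨h4, Nat.floor_le (by positivity), ?_⟩
    have h5 := Nat.lt_floor_add_one (Real.exp (Λ / 2))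
    have h6 : (1 : ℝ) ≤ (⌊Real.exp (Λ / 2)⌋₊ : ℕ) := by exact_mod_cast h4
    linarith
  refine ⟨κ₀ / 132, by positivity, ?_, ?_⟩
  · intro T
    obtain ⟨N₀, hN₀⟩ := h1 T
    obtain ⟨Λ₀, hΛ₀, hb⟩ := good_of_bound z D κ₀ hκ₀ hκ₀1 T
    refine ⟨max Λ₀ (2 * N₀), fun Λ hΛ t ht => ?_⟩
    have hΛa : Λ₀ ≤ Λ := (le_max_left _ _).trans hΛ
    have hΛb : 2 * (N₀ : ℝ) ≤ Λ := (le_max_right _ _).trans hΛ
    obtain ⟨a1, a2, a3⟩ := hfl Λ (by linarith)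
    have hNN : N₀ ≤ ⌊Real.exp (Λ / 2)⌋₊ := by
      refine Nat.le_floor ?_
      have h3 := Real.add_one_le_exp (Λ / 2)
      linarith
    obtain ⟨Q, hQ, hQ0, h3, -⟩ := hN₀ _ hNN t ht
    refine ⟨Q, hQ, hQ0, fun P hPy hPx hPh hdiv => ?_⟩
    refine hb Λ hΛa t ht _ a2 a3 P hPy hPx hPh fun q hq p b1 b2 b3 => ?_
    exact h3 _ b1 b2 (b3.trans (hpow _ a1)) (hdiv q hq p)
  · intro t
    obtain ⟨G₀, c1, c2, c3⟩ := h2 t
    obtain ⟨Λ₀, hΛ₀, hb⟩ := good_of_bound z D κ₀ hκ₀ hκ₀1 |t|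
    refine ⟨{Λ | Λ₀ ≤ Λ ∧ ⌊Real.exp (Λ / 2)⌋₊ ∈ G₀}, ?_, ?_, ?_⟩
    · intro B
      obtain ⟨N, hN, hNB⟩ := c2 (max 1 ⌈Real.exp (max B Λ₀ / 2)⌉₊)
      have hN1 : 1 ≤ N := (le_max_left _ _).trans hNB
      have hN0 : (0 : ℝ) < N := by exact_mod_cast hN1
      have hNc : Real.exp (max B Λ₀ / 2) ≤ N := (Nat.le_ceil _).trans (by exact_mod_cast (le_max_right _ _).trans hNB)
      have h3 : max B Λ₀ ≤ 2 * Real.log N := by
        have h4 := (Real.le_log_iff_exp_le hN0).2 hNc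
        linarith
      have e1 : Real.exp (2 * Real.log N / 2) = N := by
        rw [mul_div_cancel_left₀ _ (two_ne_zero), Real.exp_log hN0]
      refine ⟨2 * Real.log N, ⟨(le_max_right _ _).trans h3, ?_⟩, (le_max_left _ _).trans h3⟩
      rw [e1, Nat.floor_natCast]
      exact hN
    · rintro Λ ⟨hΛa, hΛG⟩ P hPy hPx hPh hirr
      obtain ⟨a1, a2, a3⟩ := hfl Λ (by linarith)
      refine hb Λ hΛa t le_rfl _ a2 a3 P hPy hPx hPh fun q hq p b1 b2 b3 => ?_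
      refine (c1 _ hΛG).1 _ b1 b2 (b3.trans (hpow _ a1)) ?_
      rw [lin_rv]
      intro h0
      have hq0 : (q : ℝ) ≠ 0 := by exact_mod_cast (by omega : q ≠ 0)
      apply hirr
      refine ⟨(p : ℚ) / (q : ℚ), ?_⟩
      push_cast at h0 ⊢
      rw [div_eq_iff hq0]
      linarith
    · intro hrel
      obtain ⟨N₁, hN₁⟩ := c3 hrel
      refine ⟨max Λ₀ (2 * N₁), fun Λ hΛ => ⟨(le_max_left _ _).trans hΛ, hN₁ _ ?_⟩⟩
      have hΛb : 2 * (N₁ : ℝ) ≤ Λ := (le_max_right _ _).trans hΛ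
      refine Nat.le_floor ?_
      have h3 := Real.add_one_le_exp (Λ / 2)
      linarith

end Pool.Agent.Q23.GD
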