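import Mathlib
import Pool.Agent.Q23.GD.Core

/-!
# Algebraic relations and irreducible relations
-/

set_option autoImplicit false

namespace Pool.Agent.Q23.GD

open Finset Polynomial
open Pool.Agent.Q29.Eqd (rv)
open Pool.Agent.TH456.TM (IR)

/-- an algebraic relation gives an irreducible one -/
theorem exists_irr (z t : ℝ) (D : ℕ) (Q : ℤ[X][X]) (hQ : Q ≠ 0) (hy : Q.natDegree ≤ D)
    (hx : ∀ j, (Q.coeff j).natDegree ≤ D) (hv : rv z t Q = 0) : ∃ F ∈ IR D, rv z t F = 0 := by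
  obtain ⟨f, hf, hassoc⟩ := UniqueFactorizationMonoid.exists_prime_factors Q hQ
  obtain ⟨u, hu⟩ := hassoc
  have h0 : rv z t f.prod = 0 := by
    have h1 : rv z t f.prod * rv z t (u : ℤ[X][X]) = 0 := by rw [← map_mul, hu, hv]
    have h2 : rv z t (u : ℤ[X][X]) ≠ 0 := (u.isUnit.map (rv z t)).ne_zero
    exact (mul_eq_zero.1 h1).resolve_right h2
  rw [map_multiset_prod, Multiset.prod_eq_zero_iff, Multiset.mem_map] at h0
  obtain ⟨b, hb, hb0⟩ := h0
  have hbp := hf b hb
  have hbQ : b ∣ Q := by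
    rw [← hu]
    exact (Multiset.dvd_prod hb).mul_right _
  have key : ∀ c : ℤ[X][X], Irreducible c → c ∣ Q → 0 < c.leadingCoeff.leadingCoeff → c ∈ IR D := by
    intro c hc hcQ hlc
    exact ⟨hc, (natDegree_le_of_dvd hcQ hQ).trans hy, Pool.Agent.Q29.Eqd.xdeg_dvd hQ hcQ hx, hlc⟩
  have hb00 : b.leadingCoeff.leadingCoeff ≠ 0 := by
    rw [Ne, leadingCoeff_eq_zero, leadingCoeff_eq_zero]
    exact hbp.ne_zero
  rcases lt_or_gt_of_ne hb00 with h | h
  · have has : Associated b (-b) := (Associated.refl b).neg_right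
    refine ⟨-b, key (-b) (has.irreducible hbp.irreducible) (has.dvd_iff_dvd_left.1 hbQ) ?_,
      by rw [map_neg, hb0, neg_zero]⟩
    rw [leadingCoeff_neg, leadingCoeff_neg]
    linarith
  · exact ⟨b, key b hbp.irreducible hbQ h, hb0⟩

end Pool.Agent.Q23.GD
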